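import Pool.Agent.Helper3.WAR.Helper30Stack
import Pool.Agent.Helper3.WAR.Helper7TopLabel

/-! Project WA, piece WA-20: the number of representations of the whole set. -/

set_option autoImplicit false

namespace Pool.Agent.Helper3.WAR

open Finset
open Pool.Agent.Helper3.WT (rp)
open Pool.Agent.Helper3.WA
open Pool.Agent.Helper28.WA (W_pos W_mono part_ge)
open Pool.Agent.Helper3.WAR.Helper30.WA (rp_part_part)
open Pool.Agent.Helper3.WAR.Helper7.WA (top_unique label_unique)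

/-- the pairs of sum `n` in `X × Y` form a finite set -/
theorem fin_pairs (X Y : Set ℕ) (n : ℕ) :
    {q : ℕ × ℕ | q.1 ∈ X ∧ q.2 ∈ Y ∧ q.1 + q.2 = n}.Finite := by
  refine Set.Finite.subset (Set.finite_Iic ((n, n) : ℕ × ℕ)) ?_
  rintro ⟨a, b⟩ ⟨_, _, h⟩
  simp only [Set.mem_Iic, Prod.mk_le_mk]
  simp only at h
  omega

/-- WA-20 (from WA-18, WA-19): at most `2 (K + 1)` types of the smaller summand -/
theorem rp_A (σ : SysA) {K n h : ℕ} (hn : n < σ.W (K + 1)) (hH : ∀ j ≤ K, σ.H j ≤ h) :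
    rp σ.A σ.A n ≤ 4 * (K + 1) * (∏ j ∈ range (K + 1), σ.G j) * h := by
  classical
  set Pr := ∏ j ∈ range (K + 1), σ.G j with hPr0
  set P : Set (ℕ × ℕ) := {q | (∃ k N k' N', (k' < k ∨ (k' = k ∧ N' ≤ N)) ∧ N < σ.M k ∧
    N' < σ.M k' ∧ q.1 ∈ σ.Part k N ∧ q.2 ∈ σ.Part k' N') ∧ q.1 + q.2 = n} with hP
  have hPA : P ⊆ {q : ℕ × ℕ | q.1 ∈ σ.A ∧ q.2 ∈ σ.A ∧ q.1 + q.2 = n} := by
    rintro ⟨a, b⟩ ⟨⟨k, N, k', N', _, hN, hN', ha, hb⟩, hs⟩
    exact ⟨⟨k, N, hN, ha⟩, ⟨k', N', hN', hb⟩, hs⟩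
  have hfin : {q : ℕ × ℕ | q.1 ∈ σ.A ∧ q.2 ∈ σ.A ∧ q.1 + q.2 = n}.Finite := fin_pairs _ _ _
  have hPfin : P.Finite := hfin.subset hPA
  have hG : ∀ j, 1 ≤ σ.G j := fun j => (σ.comp j).G_pos
  have hPcard : P.ncard ≤ 2 * (K + 1) * Pr * h := by
    rcases Set.eq_empty_or_nonempty P with he | ⟨⟨a0, b0⟩, ⟨k, N, k0, N0, hkN, hN, hN0,
      ha0, hb0⟩, hs0⟩
    · rw [he, Set.ncard_empty]; exact Nat.zero_le _
    · simp only at ha0 hb0 hs0
      have hk : k < K + 1 := by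
        by_contra hcon
        have h1 := part_ge σ hN a0 ha0
        have h2W := W_mono σ (not_lt.1 hcon)
        have h0 : 0 < 2 * σ.p k := Helper7.WA.Q_pos σ k
        have h3 : 1 ≤ (2 * σ.p k) ^ (2 * N) := Nat.one_le_pow _ _ h0
        have h4 : σ.W k ≤ σ.W k * (2 * σ.p k) ^ (2 * N) := Nat.le_mul_of_pos_right _ h3
        omega
      -- the pairs with smaller summand in component `c`
      set Pc : ℕ → Set (ℕ × ℕ) := fun c => {q | (∃ N', (c < k ∨ (c = k ∧ N' ≤ N)) ∧ N' < σ.M c ∧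
        q.1 ∈ σ.Part k N ∧ q.2 ∈ σ.Part c N') ∧ q.1 + q.2 = n} with hPc
      have hsub : P ⊆ ⋃ c ∈ range (K + 1), Pc c := by
        rintro ⟨a, b⟩ ⟨⟨l, O, l', O', hlO, hO, hO', ha, hb⟩, hs⟩
        simp only at ha hb hs
        obtain ⟨e1, e2⟩ := top_unique σ hkN hN hN0 hlO hO hO' ha0 hb0 ha hb (hs0.trans hs.symm)
        subst e1 e2
        have hl' : l' < K + 1 := by
          rcases hlO with h1 | ⟨h1, _⟩ <;> omega
        simp only [Set.mem_iUnion, mem_range]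
        exact ⟨l', hl', ⟨⟨O', hlO, hO', ha, hb⟩, hs⟩⟩
      have hPcard1 : ∀ c ∈ range (K + 1), (Pc c).ncard ≤ 2 * (Pr * h) := by
        intro c hc
        have hc1 : c ≤ K := by have := mem_range.1 hc; omega
        have hPrk : (∏ j ∈ range (k + 1), σ.G j) ≤ Pr :=
          Finset.prod_le_prod_of_subset_of_one_le' (Finset.range_mono (by omega))
            (fun j _ _ => hG j)
        have hb1 : ∀ O', (c < k ∨ (c = k ∧ O' ≤ N)) → O' < σ.M c →
            rp (σ.Part k N) (σ.Part c O') n ≤ Pr * h := fun O' h1 h2 =>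
          (rp_part_part σ h1 hN h2 n).trans (Nat.mul_le_mul hPrk (hH c hc1))
        -- the two sets
        by_cases hne : ∃ q ∈ Pc c, ∃ N', 1 ≤ N' ∧ (c < k ∨ (c = k ∧ N' ≤ N)) ∧ N' < σ.M c ∧
            q.1 ∈ σ.Part k N ∧ q.2 ∈ σ.Part c N'
        · obtain ⟨⟨a1, b1⟩, ⟨_, hs1⟩, N1, hN1, hcN1, hN1M, ha1, hb1'⟩ := hne
          simp only at ha1 hb1' hs1
          have hsub2 : Pc c ⊆
              {q : ℕ × ℕ | q.1 ∈ σ.Part k N ∧ q.2 ∈ σ.Part c 0 ∧ q.1 + q.2 = n} ∪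
              {q : ℕ × ℕ | q.1 ∈ σ.Part k N ∧ q.2 ∈ σ.Part c N1 ∧ q.1 + q.2 = n} := by
            rintro ⟨a, b⟩ ⟨⟨O', hcO, hO', ha, hb⟩, hs⟩
            simp only at ha hb hs
            rcases Nat.eq_zero_or_pos O' with h0 | h0
            · subst h0
              exact Or.inl ⟨ha, hb, hs⟩
            · have e := label_unique σ hcO hcN1 hN h0 hO' hN1 hN1M ha hb ha1 hb1'
                (hs.trans hs1.symm)
              subst e
              exact Or.inr ⟨ha, hb, hs⟩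
          have hM0 : 0 < σ.M c := by omega
          have hc0 : c < k ∨ (c = k ∧ 0 ≤ N) := by
            rcases hcN1 with h1 | ⟨h1, _⟩
            · exact Or.inl h1
            · exact Or.inr ⟨h1, Nat.zero_le _⟩
          calc (Pc c).ncard ≤ _ := Set.ncard_le_ncard hsub2
                ((fin_pairs _ _ _).union (fin_pairs _ _ _))
            _ ≤ rp (σ.Part k N) (σ.Part c 0) n + rp (σ.Part k N) (σ.Part c N1) n :=
                Set.ncard_union_le _ _
            _ ≤ 2 * (Pr * h) := by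
                have h1 := hb1 0 hc0 hM0
                have h2 := hb1 N1 hcN1 hN1M
                omega
        · rcases Set.eq_empty_or_nonempty (Pc c) with he | ⟨⟨a1, b1⟩, ⟨O1, hcO1, hO1, _, _⟩, _⟩
          · rw [he, Set.ncard_empty]; exact Nat.zero_le _
          · have hsub2 : Pc c ⊆
                {q : ℕ × ℕ | q.1 ∈ σ.Part k N ∧ q.2 ∈ σ.Part c 0 ∧ q.1 + q.2 = n} := by
              rintro ⟨a, b⟩ ⟨⟨O', hcO, hO', ha, hb⟩, hs⟩
              simp only at ha hb hs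
              rcases Nat.eq_zero_or_pos O' with h0 | h0
              · subst h0
                exact ⟨ha, hb, hs⟩
              · exact absurd ⟨(a, b), ⟨⟨O', hcO, hO', ha, hb⟩, hs⟩, O', h0, hcO, hO', ha, hb⟩ hne
            have hM0 : 0 < σ.M c := by omega
            have hc0 : c < k ∨ (c = k ∧ 0 ≤ N) := by
              rcases hcO1 with h1 | ⟨h1, _⟩
              · exact Or.inl h1
              · exact Or.inr ⟨h1, Nat.zero_le _⟩
            calc (Pc c).ncard ≤ rp (σ.Part k N) (σ.Part c 0) n :=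
                  Set.ncard_le_ncard hsub2 (fin_pairs _ _ _)
              _ ≤ Pr * h := hb1 0 hc0 hM0
              _ ≤ 2 * (Pr * h) := by omega
      have hfinU : (⋃ c ∈ range (K + 1), Pc c).Finite := by
        refine Set.Finite.biUnion (range (K + 1)).finite_toSet ?_
        intro c _
        refine (fin_pairs (σ.Part k N) Set.univ n).subset ?_
        rintro ⟨a, b⟩ ⟨⟨O', _, _, ha, _⟩, hs⟩
        exact ⟨ha, Set.mem_univ _, hs⟩
      calc P.ncard ≤ (⋃ c ∈ range (K + 1), Pc c).ncard := Set.ncard_le_ncard hsub hfinU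
        _ ≤ ∑ c ∈ range (K + 1), (Pc c).ncard := Finset.set_ncard_biUnion_le _ _
        _ ≤ ∑ _c ∈ range (K + 1), 2 * (Pr * h) := Finset.sum_le_sum hPcard1
        _ = 2 * (K + 1) * Pr * h := by
            rw [Finset.sum_const, card_range, smul_eq_mul]; ring
  -- splitting
  have hsplit : {q : ℕ × ℕ | q.1 ∈ σ.A ∧ q.2 ∈ σ.A ∧ q.1 + q.2 = n} ⊆ P ∪ Prod.swap '' P := by
    rintro ⟨a, b⟩ ⟨⟨k, N, hN, ha⟩, ⟨k', N', hN', hb⟩, hs⟩
    simp only at ha hb hs
    by_cases hc : k' < k ∨ (k' = k ∧ N' ≤ N)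
    · exact Or.inl ⟨⟨k, N, k', N', hc, hN, hN', ha, hb⟩, hs⟩
    · right
      refine ⟨(b, a), ⟨⟨k', N', k, N, ?_, hN', hN, hb, ha⟩, ?_⟩, rfl⟩
      · rcases lt_trichotomy k k' with h | h | h
        · exact Or.inl h
        · refine Or.inr ⟨h, ?_⟩
          by_contra hc2
          exact hc (Or.inr ⟨h.symm, by omega⟩)
        · exact absurd (Or.inl h) hc
      · simp only; omega
  calc rp σ.A σ.A n ≤ (P ∪ Prod.swap '' P).ncard :=
        Set.ncard_le_ncard hsplit (hPfin.union (hPfin.image _))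
    _ ≤ P.ncard + (Prod.swap '' P).ncard := Set.ncard_union_le _ _
    _ ≤ P.ncard + P.ncard := by
        have := Set.ncard_image_le (f := Prod.swap) hPfin
        omega
    _ ≤ 2 * (K + 1) * Pr * h + 2 * (K + 1) * Pr * h := by omega
    _ = 4 * (K + 1) * Pr * h := by ring

end Pool.Agent.Helper3.WAR
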