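import Pool.Agent.Helper3.WAR.Helper8SysLower
import Pool.Agent.Helper3.WAR.RpA
import Pool.Agent.Helper41.WA.Upper

/-! Project WA: the trade-off theorem (MP_12a1af_nt, Q2, negated side). -/

set_option autoImplicit false

namespace Pool.Agent.Helper3.WAR

open Finset Filter
open Pool.Agent.Helper3.WT (rp)
open Pool.Agent.Helper3.WA

/-- the trade-off theorem -/
theorem main {α : ℝ} (h0 : 0 < α) (h1 : α ≤ 1 / 2) : ∃ A : Set ℕ, ∀ e : ℝ, 0 < e →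
    (∀ᶠ n : ℕ in atTop, (rp A A n : ℝ) ≤ Real.log n ^ (1 - 2 * α + e)) ∧
    ∀ᶠ x : ℕ in atTop,
      Real.sqrt x * Real.exp (-(Real.log x ^ (α + e))) ≤ ((A ∩ Set.Iio x).ncard : ℝ) := by
  obtain ⟨σ, j, hs, hr, hG⟩ := Helper8.WA.sys_exists h0 h1
  exact ⟨σ.A, fun e he => ⟨Pool.Agent.Helper41.WA.upper h0 h1 hs hG
    (fun K n h hn hH => rp_A σ hn hH) e he, Helper8.WA.lower h0 h1 hs hr e he⟩⟩

end Pool.Agent.Helper3.WAR
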