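import Pool.Agent.Helper3.WT.Defs

/-!
Representations of stacked sets (by helper30, project WT).
-/

set_option autoImplicit false
set_option linter.unusedVariables false

namespace Pool.Agent.Helper3.WAR.StackWT

open Finset Filter
open Pool.Agent.Helper48.ET
open Pool.Agent.Helper3.WT

lemma rpset_finite (X Y : Set ℕ) (n : ℕ) :
    {q : ℕ × ℕ | q.1 ∈ X ∧ q.2 ∈ Y ∧ q.1 + q.2 = n}.Finite := by
  refine Set.Finite.subset ((range (n + 1) ×ˢ range (n + 1) : Finset (ℕ × ℕ)).finite_toSet) ?_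
  rintro ⟨a, b⟩ ⟨_, _, h⟩
  simp only [coe_product, coe_range, Set.mem_prod, Set.mem_Iio]
  simp only at h
  omega

/-- WT-B1 -/
theorem rp_stack {X Y U V : Set ℕ} {W : ℕ} (hW : ∀ x ∈ X, ∀ y ∈ Y, x + y < W) (n : ℕ) :
    rp {m | ∃ x ∈ X, ∃ u ∈ U, m = x + W * u} {m | ∃ y ∈ Y, ∃ v ∈ V, m = y + W * v} n ≤
      rp X Y (n % W) * rp U V (n / W) := by
  unfold rp
  rw [← Set.ncard_prod]
  have hfin : ({q : ℕ × ℕ | q.1 ∈ X ∧ q.2 ∈ Y ∧ q.1 + q.2 = n % W} ×ˢ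
      {q : ℕ × ℕ | q.1 ∈ U ∧ q.2 ∈ V ∧ q.1 + q.2 = n / W}).Finite :=
    (rpset_finite X Y _).prod (rpset_finite U V _)
  refine le_trans ?_ (Set.ncard_image_le
    (f := fun z : (ℕ × ℕ) × (ℕ × ℕ) => (z.1.1 + W * z.2.1, z.1.2 + W * z.2.2)) hfin)
  refine Set.ncard_le_ncard ?_ (hfin.image _)
  rintro ⟨a, b⟩ ⟨⟨x, hx, u, hu, ha⟩, ⟨y, hy, v, hv, hb⟩, hab⟩
  simp only at ha hb hab
  have h1 := hW x hx y hy
  have hWpos : 0 < W := by omega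
  have h2 : n = (x + y) + W * (u + v) := by
    rw [← hab, ha, hb]
    ring
  have h3 : n % W = x + y := by
    rw [h2, Nat.add_mul_mod_self_left, Nat.mod_eq_of_lt h1]
  have h4 : n / W = u + v := by
    rw [h2, Nat.add_mul_div_left _ _ hWpos, Nat.div_eq_of_lt h1, zero_add]
  refine ⟨((x, y), (u, v)), ?_, ?_⟩
  · refine ⟨⟨hx, hy, h3.symm⟩, ⟨hu, hv, h4.symm⟩⟩
  · simp only [ha, hb]

lemma rp_zero_le (X : Set ℕ) (n : ℕ) : rp X {0} n ≤ 1 := by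
  unfold rp
  rw [Set.ncard_le_one (rpset_finite X {0} n)]
  rintro ⟨a, b⟩ ⟨_, hb, hab⟩ ⟨a', b'⟩ ⟨_, hb', hab'⟩
  simp only [Set.mem_singleton_iff] at hb hb' hab hab'
  ext
  · simp only
    omega
  · simp only
    omega

end Pool.Agent.Helper3.WAR.StackWT
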