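import Pool.Agent.Helper3.WAR.Helper52Select
import Pool.Agent.Helper3.WAR.Helper12RpFar
import Pool.Agent.Helper3.WAR.Helper74Card
import Pool.Agent.Helper3.WAR.StackWT
import Pool.Agent.Helper59.WA.RpNear
import Pool.Agent.Helper83.WA.RSetExists

/-! Project WA, piece WA-16: existence of components. -/

set_option autoImplicit false

namespace Pool.Agent.Helper3.WAR

open Finset
open Pool.Agent.Helper48.ET
open Pool.Agent.Helper3.WT (rp GG P0)
open Pool.Agent.Helper3.WA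
open Pool.Agent.Helper12.WT (rp_comm rp_mono two_enc_lt enc_mod)
open Pool.Agent.Helper3.WAR.StackWT (rp_stack rp_zero_le)
open Pool.Agent.Helper3.WAR.Helper12.WA (rp_wd_same rp_wd_far)
open Pool.Agent.Helper59.WA (rp_wd_near rp_wd_zero)
open Pool.Agent.Helper3.WAR.Helper74.WA (wdl_card wrl_card)
open Pool.Agent.Helper3.WAR.Helper52.WA (select_wa)
open Pool.Agent.Helper83.WA (rset_exists)

section

variable {p : ℕ} [Fact p.Prime]

theorem wdl_subset (C n : ℕ) (θ : Par p) (β ℓ : ℕ) : WdL C n θ β ℓ ⊆ Wd C n θ := by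
  rintro a ⟨x, z, h, _, e⟩
  exact ⟨x, z, h, e⟩

theorem wrl_subset (C n : ℕ) (θ : Par p) (R : Set ℕ) (β ℓ : ℕ) :
    WRL C n θ R β ℓ ⊆ WR C n θ R := by
  rintro a ⟨x, z, h, _, r, hr, e⟩
  exact ⟨x, z, h, r, hr, e⟩

theorem two_wd_lt (C n : ℕ) (θ : Par p) : ∀ a ∈ Wd C n θ, 2 * a < (2 * p) ^ (2 * (n + 1)) := by
  rintro a ⟨x, z, _, rfl⟩
  exact two_enc_lt (n + 1) x z

theorem two_r_lt {l H : ℕ} {R : Set ℕ} (hR : RSet p l H R) : ∀ r ∈ R, 2 * r < (2 * p) ^ 2 := by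
  intro r hr
  obtain ⟨a, b, rfl⟩ := hR.form r hr
  have ha : a.val < p := ZMod.val_lt _
  have hb : b.val < p := ZMod.val_lt _
  have h1 : 2 * p * b.val ≤ 2 * p * (p - 1) := Nat.mul_le_mul_left _ (by omega)
  have h2 : 2 * p * (p - 1) + 2 * p = 2 * p * p := by
    obtain ⟨q, hq⟩ : ∃ q, p = q + 1 := ⟨p - 1, by omega⟩
    rw [hq, Nat.add_sub_cancel]
    ring
  have h3 : (2 * p) ^ 2 = 2 * (2 * p * p) := by ring
  omega

theorem two_wr_lt {C n l H : ℕ} {θ : Par p} {R : Set ℕ} (hR : RSet p l H R) :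
    ∀ a ∈ WR C n θ R, 2 * a < (2 * p) ^ (2 * (n + 2)) := by
  rintro a ⟨x, z, _, r, hr, rfl⟩
  have h1 := two_enc_lt (n + 1) x z
  have h2 := two_r_lt hR r hr
  have h3 : (2 * p) ^ (2 * (n + 2)) = (2 * p) ^ (2 * (n + 1)) * (2 * p) ^ 2 := by ring
  rw [h3]
  have h4 : (2 * p) ^ (2 * (n + 1)) * (2 * r + 1) ≤ (2 * p) ^ (2 * (n + 1)) * (2 * p) ^ 2 :=
    Nat.mul_le_mul_left _ (by omega)
  have h5 : (2 * p) ^ (2 * (n + 1)) * (2 * r + 1) =
      2 * ((2 * p) ^ (2 * (n + 1)) * r) + (2 * p) ^ (2 * (n + 1)) := by ring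
  omega

/-- a set as a stack with `{0}` on top -/
theorem stack_zero' (X : Set ℕ) (W : ℕ) :
    X = {m | ∃ y ∈ X, ∃ v ∈ ({0} : Set ℕ), m = y + W * v} := by
  ext m
  constructor
  · intro h
    exact ⟨m, h, 0, rfl, by simp⟩
  · rintro ⟨y, hy, v, hv, rfl⟩
    rw [Set.mem_singleton_iff] at hv
    subst hv
    simpa using hy

theorem wr_stack (C n : ℕ) (θ : Par p) (R : Set ℕ) :
    WR C n θ R = {m | ∃ x ∈ Wd C n θ, ∃ r ∈ R, m = x + (2 * p) ^ (2 * (n + 1)) * r} := by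
  ext m
  constructor
  · rintro ⟨x, z, h, r, hr, rfl⟩
    exact ⟨_, ⟨x, z, h, rfl⟩, r, hr, rfl⟩
  · rintro ⟨a, ⟨x, z, h, rfl⟩, r, hr, rfl⟩
    exact ⟨x, z, h, r, hr, rfl⟩

/-- a word with a partial digit pair against a set of smaller numbers -/
theorem rp_wr_low {C n B : ℕ} {θ : Par p} {R Y : Set ℕ}
    (hY : ∀ y ∈ Y, 2 * y < (2 * p) ^ (2 * (n + 1))) (h : ∀ m, rp (Wd C n θ) Y m ≤ B) (m : ℕ) :
    rp (WR C n θ R) Y m ≤ B := by
  have h1 := rp_stack (X := Wd C n θ) (Y := Y) (U := R) (V := ({0} : Set ℕ))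
    (W := (2 * p) ^ (2 * (n + 1)))
    (fun x hx y hy => by
      have h2 := two_wd_lt C n θ x hx
      have h3 := hY y hy
      omega) m
  rw [← stack_zero' Y, ← wr_stack] at h1
  calc rp (WR C n θ R) Y m ≤ _ := h1
    _ ≤ B * 1 := Nat.mul_le_mul (h _) (rp_zero_le _ _)
    _ = B := Nat.mul_one B

/-- two words of the same length with partial digit pairs -/
theorem rp_wr_same {C n B H l : ℕ} {θ : Par p} {R : Set ℕ} (hR : RSet p l H R)
    (h : ∀ m, rp (Wd C n θ) (Wd C n θ) m ≤ B) (m : ℕ) :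
    rp (WR C n θ R) (WR C n θ R) m ≤ B * H := by
  have h1 := rp_stack (X := Wd C n θ) (Y := Wd C n θ) (U := R) (V := R)
    (W := (2 * p) ^ (2 * (n + 1)))
    (fun x hx y hy => by
      have h2 := two_wd_lt C n θ x hx
      have h3 := two_wd_lt C n θ y hy
      omega) m
  rw [← wr_stack] at h1
  exact h1.trans (Nat.mul_le_mul (h _) (hR.RR _))

end

theorem GG_pos (C M : ℕ) : 1 ≤ GG C M := by
  unfold GG N0
  have h1 : 0 < 2 ^ (Nat.log C M + 1) := by positivity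
  have h2 : 0 < ((2 * C ^ 4 + 1) ^ (2 * C ^ 4)) ^ 2 := by positivity
  exact Nat.mul_pos h1 h2

/-- WA-16 (one component) -/
theorem comp_exists {C M p d l : ℕ} (hC : 8 ≤ C) (hev : Even C) (hM : 2 ≤ M) (hpp : p.Prime)
    (hp : P0 C M < p) (hMp : 4 * M ≤ p) (hd : p ≤ 2 ^ (d + 1)) (hl : 6 ≤ l) :
    ∃ (T : Set ℕ) (S : ℕ → Set ℕ),
      CompA p M (GG C M) (16 * (d / l) + 32) (p / (2 * M)) l T S := by
  have : Fact p.Prime := ⟨hpp⟩
  obtain ⟨θ, h1, h2, h3, h4⟩ := select_wa (C := C) (M := M) (p := p) hC hev hp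
  obtain ⟨R, hR⟩ := rset_exists (p := p) hd hl
  have hC2 : 2 ≤ C := by omega
  set β := p / (2 * M) with hβ
  set H := 16 * (d / l) + 32 with hH
  have hH1 : 1 ≤ H := by omega
  have hG1 := GG_pos C M
  have hβ1 : 1 ≤ β := (Nat.le_div_iff_mul_le (by omega)).2 (by omega)
  have hβ2 : 2 * M * β ≤ p := Nat.mul_div_le _ _
  have hβ3 : p < 2 * M * β + 2 * M := by
    have := Nat.lt_mul_div_succ p (b := 2 * M) (by omega)
    rw [← hβ] at this
    have e : 2 * M * (β + 1) = 2 * M * β + 2 * M := by ring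
    omega
  have hβ4 : 4 * M * β = 2 * (2 * M * β) := by ring
  have hGH : GG C M ≤ GG C M * H := Nat.le_mul_of_pos_right _ hH1
  have hHG : H ≤ GG C M * H := Nat.le_mul_of_pos_left _ hG1
  -- the bounds for words
  have kS : ∀ n ≤ M, ∀ m, rp (Wd C n (θ n)) (Wd C n (θ n)) m ≤ GG C M := fun n hn m =>
    rp_wd_same hC2 (h4 n hn) m
  have kL : ∀ n' n, n' < n → n ≤ M → ∀ m,
      rp (Wd C n (θ n)) (WR C n' (θ n') R) m ≤ GG C M * H := by
    intro n' n hlt hn m
    rcases Nat.lt_or_ge (n' + 1) n with h | h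
    · exact (rp_wd_far hC2 (by omega) (h3 n' n (by omega) hn) hR m).trans hGH
    · obtain rfl : n = n' + 1 := by omega
      exact rp_wd_near hC2 (h1 _ hn).1 (h2 n' hn) hR m
  have kZ : ∀ n ≤ M, ∀ m, rp (Wd C n (θ n)) R m ≤ GG C M * H := fun n hn m =>
    (rp_wd_zero hC2 (h1 n hn).1 (h1 n hn).2 hR hH1 m).trans hHG
  have hRlt : ∀ n, ∀ r ∈ R, 2 * r < (2 * p) ^ (2 * (n + 1)) := fun n r hr =>
    lt_of_lt_of_le (two_r_lt hR r hr) (Nat.pow_le_pow_right (by omega) (by omega))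
  -- the sets
  let S : ℕ → Set ℕ := fun N => if N = 0 then R else WRL C (N - 1) (θ (N - 1)) R β (2 * N * β)
  have hS0 : S 0 = R := if_pos rfl
  have hS : ∀ n, S (n + 1) = WRL C n (θ n) R β (2 * (n + 1) * β) := fun n => by
    simp only [S, Nat.add_sub_cancel, if_neg (Nat.succ_ne_zero n)]
  refine ⟨WdL C (M - 1) (θ (M - 1)) β 0, S, ?_⟩
  obtain ⟨K, rfl⟩ : ∃ K, M = K + 1 := ⟨M - 1, by omega⟩
  rw [Nat.add_sub_cancel]
  refine { two_le := hM, beta_pos := hβ1, lab_le := hβ2, le_lab := by omega, G_pos := hG1,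
           H_pos := hH1, T_lt := ?_, S_lt := ?_, S_ge := ?_,
           T_lab := ?_, S_lab := ?_, TT := ?_, TS := ?_, SS := ?_, T_card := ?_, S_card := ?_ }
  · intro a ha
    exact two_wd_lt C K (θ K) a (wdl_subset _ _ _ _ _ ha)
  · intro N hN a ha
    rcases N with _ | n
    · rw [hS0] at ha
      exact hRlt 0 a ha
    · rw [hS] at ha
      exact two_wr_lt hR a (wrl_subset _ _ _ _ _ _ ha)
  · intro N hN a ha
    rcases N with _ | n
    · rw [hS0] at ha
      have := hR.pos a ha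
      simp only [Nat.mul_zero, pow_zero]
      omega
    · rw [hS] at ha
      obtain ⟨x, z, _, _, r, hr, rfl⟩ := ha
      have hr1 := hR.pos r hr
      have : (2 * p) ^ (2 * (n + 1)) ≤ (2 * p) ^ (2 * (n + 1)) * r :=
        Nat.le_mul_of_pos_right _ hr1
      omega
  · rintro a ⟨x, z, _, ⟨_, h⟩, rfl⟩
    rw [enc_mod (by omega) x z]
    simpa using h
  · intro N hN1 hN a ha
    obtain ⟨n, rfl⟩ : ∃ n, N = n + 1 := ⟨N - 1, by omega⟩
    rw [hS] at ha
    obtain ⟨x, z, _, ⟨h5, h6⟩, r, hr, rfl⟩ := ha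
    have e : (2 * p) ^ (2 * (n + 1)) * r = 2 * p * ((2 * p) ^ (2 * n + 1) * r) := by ring
    rw [e, Nat.add_mul_mod_self_left, enc_mod (by omega) x z]
    exact ⟨h5, h6⟩
  · intro m
    exact (rp_mono (wdl_subset _ _ _ _ _) (wdl_subset _ _ _ _ _) m).trans (kS K (by omega) m)
  · intro N hN m
    rcases N with _ | n
    · rw [hS0]
      exact (rp_mono (wdl_subset _ _ _ _ _) subset_rfl m).trans (kZ K (by omega) m)
    · rw [hS]
      exact (rp_mono (wdl_subset _ _ _ _ _) (wrl_subset _ _ _ _ _ _) m).trans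
        (kL n K (by omega) (by omega) m)
  · intro N N' hNN hN m
    rcases N with _ | n
    · obtain rfl : N' = 0 := by omega
      rw [hS0]
      exact (hR.RR m).trans hHG
    · rw [hS]
      rcases N' with _ | n'
      · rw [hS0]
        exact (rp_mono (wrl_subset _ _ _ _ _ _) subset_rfl m).trans
          (rp_wr_low (hRlt n) (kZ n (by omega)) m)
      · rw [hS]
        refine (rp_mono (wrl_subset _ _ _ _ _ _) (wrl_subset _ _ _ _ _ _) m).trans ?_
        rcases Nat.lt_or_ge n' n with h | h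
        · refine rp_wr_low (fun y hy => ?_) (kL n' n h (by omega)) m
          exact lt_of_lt_of_le (two_wr_lt hR y hy) (Nat.pow_le_pow_right (by omega) (by omega))
        · obtain rfl : n = n' := by omega
          exact rp_wr_same hR (kS n (by omega)) m
  · exact wdl_card hC2 K (θ K) (by
      have : β ≤ 2 * (K + 1) * β := Nat.le_mul_of_pos_left _ (by omega)
      omega)
  · intro N hN y hy1 hy2
    rcases N with _ | n
    · rw [hS0]
      have := hR.size y hy1 hy2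
      simpa [cw] using this
    · rw [hS]
      have h5 := hR.size y hy1 hy2
      have h6 := wrl_card hC2 n (θ n) (β := β) (ℓ := 2 * (n + 1) * β) (by
        have e1 : 2 * (n + 1) * β + β ≤ 2 * (K + 1) * β := by
          have e2 : 2 * (n + 1) * β + β = (2 * (n + 1) + 1) * β := by ring
          rw [e2]
          exact Nat.mul_le_mul_right _ (by omega)
        omega) R y
      have e : cw p β (n + 1) = β * p ^ n := by simp [cw]
      rw [e]
      set r := (R ∩ Set.Iio y).ncard with hr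
      set s := (WRL C n (θ n) R β (2 * (n + 1) * β) ∩
        Set.Iio ((2 * p) ^ (2 * (n + 1)) * y)).ncard with hs
      calc y * (β * p ^ n) ^ 2 ≤ (2 ^ (l + 3) * r) ^ 2 * (β * p ^ n) ^ 2 :=
            Nat.mul_le_mul_right _ h5
        _ = (2 ^ (l + 3) * (β * p ^ n * r)) ^ 2 := by ring
        _ ≤ (2 ^ (l + 3) * s) ^ 2 :=
            Nat.pow_le_pow_left (Nat.mul_le_mul_left _ h6) 2

end Pool.Agent.Helper3.WAR
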