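import Pool.Agent.Helper3.WA.Defs
import Pool.Agent.Helper3.WAR.Helper61Merge
import Pool.Agent.Helper48.ET.LocalSteps
import Pool.Agent.Helper67.WA.A1

/-! WA-4: `near_final` (MP_12a1af_nt, Q2) -/

set_option autoImplicit false

namespace Pool.Agent.Helper3.WAR.Helper12.WA

open Finset
open Pool.Agent.Helper48.ET
open Pool.Agent.Helper3.WA

variable {p : ℕ} [Fact p.Prime]

lemma mm_zero (C m : ℕ) : mm C (2 * m + 1) 0 = m := by
  unfold mm
  simp

/-- WA-4 (from `ls_gen`, as `step_bottom`): `h = 0`, `R = 0`, `T'' = T' = T = n + 1 - R0` -/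
theorem near_final {C : ℕ} (hC : 8 ≤ C) {n s : ℕ} (θ' : Par p) (hs : s ≤ 1)
    (h1 : mm C (2 * n + 1) (s + 1) = mm C (2 * (n + 1) + 1) (s + 1)) :
    ∃ Q : MvPolynomial (Option (ℕ × ℕ × ℕ)) (Om p), Q ≠ 0 ∧ Q.totalDegree ≤ Del C ∧
      ∀ θ : Par p, MvPolynomial.eval θ.val Q ≠ 0 → ∀ t w : ℕ → ZMod p,
        FB (SolG (PW C n θ') (LW C (n + 1) θ) t w)
          (C ^ (s + 1) * mm C (2 * (n + 1) + 1) (s + 1)) (n + 1) (N0 C) := by
  classical
  have hC0 : 0 < C := by omega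
  obtain ⟨R0, hR0⟩ : ∃ R0, R0 = C ^ (s + 1 - 0) * mm C (2 * (n + 1) + 1) (s + 1) := ⟨_, rfl⟩
  have hR0' : R0 = C ^ (s + 1 - 0) * mm C (2 * n + 1) (s + 1) := by rw [hR0, h1]
  have hRn : R0 ≤ n := by
    have := K.region_le hC0 (2 * n + 1) 0 0 (s + 1) le_rfl
    rw [Nat.zero_add, ← hR0', Nat.sub_self, pow_zero, one_mul, mm_zero] at this
    exact this
  obtain ⟨M, W, hMW, H⟩ := region_struct (p := p) (by omega : 2 ≤ C) (2 * (n + 1) + 1) 0 0 s le_rfl
    (by omega)
  obtain ⟨M1, W1, hMW1, H1⟩ := region_struct (p := p) (by omega : 2 ≤ C) (2 * n + 1) 0 0 s le_rfl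
    (by omega)
  rw [← hR0, Nat.sub_self, pow_zero, one_mul, mm_zero] at hMW H
  rw [← hR0', Nat.sub_self, pow_zero, one_mul, mm_zero] at H1
  obtain ⟨Λ1, hΛ1⟩ := H1 θ'
  have hsz : n + 1 - R0 ≤ 2 * C ^ 4 := by
    have := K.region_size hC (κ := 2 * (n + 1) + 1) (h := 0) (h' := 0) (s := s) le_rfl (by omega)
      (by omega)
    rw [← hR0, Nat.sub_self, pow_zero, one_mul, mm_zero] at this
    exact this
  obtain ⟨T1, hT1⟩ : ∃ T1, T1 = n - R0 := ⟨_, rfl⟩
  rw [← hT1] at hΛ1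
  have hRT : R0 + T1 = n := by omega
  have hT : n + 1 - R0 = T1 + 1 := by omega
  rw [hT] at hMW H hsz
  refine Exists.elim (Pool.Agent.Helper67.WA.ls_gen hC (PW C n θ') (fun θ => LW C (n + 1) θ) (θ'.val none)
    0 0 0 R0 (T1 + 1) (T1 + 1) (T1 + 1) 0 (n + 1) le_rfl le_rfl (by omega) hsz
    (by rw [pow_zero, one_mul]; omega) M W
    (StructAux.bd T1 M1 (fun _ _ => 1)) (StructAux.bd T1 W1 (fun _ _ => 1))
    (fun j u => if j < T1 then (if u < n then Λ1 j u else 0) else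
      (if u < n then θ'.val (some (0, 2, u)) else 0)) hMW ?_ ?_ ?_ ?_) ?_
  · -- `ha`
    intro y z hyz j hj
    have hext : ∀ f : ℕ → Om p, ∑ u ∈ range (R0 + (T1 + 1)), (if u < n then f u else 0) *
        cell p C y 0 u = ∑ u ∈ range n, f u * cell p C y 0 u := by
      intro f
      rw [show R0 + (T1 + 1) = n + 1 by omega, sum_range_succ, if_neg (by omega), zero_mul,
        add_zero]
      exact sum_congr rfl fun u hu => by rw [if_pos (mem_range.1 hu)]
    rcases lt_or_ge j T1 with hj1 | hj1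
    · rw [hΛ1 y z (fun i _ _ => hyz.rel i) j hj1, StructAux.Qf_bd_l hj1]
      congr 1
      simp only [if_pos hj1]
      rw [hext]
    · have hjT : j = T1 := by omega
      have e1 : R0 + j = n := by omega
      rw [e1, hjT]
      have e0 : Qf (T1 + 1) (StructAux.bd T1 M1 (fun _ _ => 1))
          (StructAux.bd T1 W1 (fun _ _ => 1)) (fun k => cell p C y 0 (R0 + k)) T1 =
          Qf 1 (fun _ _ => (1 : Om p)) (fun _ _ => 1) (fun k => cell p C y 0 (R0 + (T1 + k))) 0 :=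
        StructAux.Qf_bd_r (T := T1) (T' := 1) (j := 0) (fun k => cell p C y 0 (R0 + k))
      rw [e0]
      simp only [lt_irrefl, if_false]
      rw [hext (fun u => θ'.val (some (0, 2, u)))]
      have e2 : Qf 1 (fun _ _ => (1 : Om p)) (fun _ _ => 1) (fun k => cell p C y 0 (R0 + (T1 + k)))
          0 = cell p C y 0 n ^ 2 := by
        unfold Qf
        simp only [range_one, sum_singleton, one_mul, Nat.add_zero]
        rw [hRT]
      rw [e2]
      have e3 := hyz.top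
      change algebraMap (ZMod p) (Om p) (z n) = algebraMap (ZMod p) (Om p) θ'.lam *
        algebraMap (ZMod p) (Om p) (y n) ^ 2 + ∑ u ∈ range n,
          algebraMap (ZMod p) (Om p) (θ'.tau 0 2 u) * algebraMap (ZMod p) (Om p) (y u)
      rw [e3, map_add, map_mul, map_pow, map_sum]
      congr 1
      exact sum_congr rfl fun u _ => by rw [map_mul]
  · -- `hb`
    intro θ
    obtain ⟨Λ, hΛ⟩ := H θ
    refine ⟨Λ, fun y z hyz j hj => ?_⟩
    rw [hΛ y z (fun i _ _ => hyz.rel i) j hj]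
    congr 2
    have : R0 + (T1 + 1) = n + 1 := by omega
    rw [this]
  · -- `hc`
    intro y z _ k hk hk'
    omega
  · -- `hd`
    intro θ t w x _ y _ _ r hr
    omega
  · rintro Q ⟨hQ0, hQd, hQ⟩
    refine ⟨Q, hQ0, hQd, ?_⟩
    intro θ hθ t w
    have := hQ θ hθ t w (Pool.Agent.Helper3.WAR.Helper61.WA.solG_finite (LW C (n + 1) θ) t w)
    rw [pow_zero, one_mul] at this
    rw [hR0, Nat.sub_zero] at this
    exact this

end Pool.Agent.Helper3.WAR.Helper12.WA
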