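import Pool.Agent.Helper28.WA.Part
import Pool.Agent.Helper3.WA.Defs
import Pool.Agent.Helper3.WAR.StackWT

/-!
# WA-18: representations of stacked sets
-/

set_option autoImplicit false
set_option linter.unusedVariables false

namespace Pool.Agent.Helper3.WAR.Helper30.WA

open Finset Filter
open Pool.Agent.Helper48.ET
open Pool.Agent.Helper3.WT (rp GG P0)
open Pool.Agent.Helper3.WA
open Pool.Agent.Helper3.WAR.StackWT (rp_stack rp_zero_le)

section sys

variable (σ : SysA)

lemma G_pos (k : ℕ) : 1 ≤ σ.G k := (σ.comp k).G_pos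

/-- the elements of `X` as a stack with the singleton `{0}` -/
lemma stack_zero (X : Set ℕ) (W : ℕ) : X = {m | ∃ y ∈ X, ∃ v ∈ ({0} : Set ℕ), m = y + W * v} := by
  ext m
  constructor
  · intro h
    exact ⟨m, h, 0, rfl, by simp⟩
  · rintro ⟨y, hy, v, hv, rfl⟩
    rw [Set.mem_singleton_iff] at hv
    subst hv
    simpa using hy

/-- WA-18 -/
theorem rp_low (k n : ℕ) : rp (σ.Low k) (σ.Low k) n ≤ ∏ j ∈ range k, σ.G j := by
  induction k generalizing n with
  | zero =>
    rw [range_zero, prod_empty]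
    exact rp_zero_le ({0} : Set ℕ) n
  | succ k ih =>
    have hW : ∀ x ∈ σ.Low k, ∀ y ∈ σ.Low k, x + y < σ.W k := by
      intro x hx y hy
      have h1 := Pool.Agent.Helper28.WA.low_lt σ k x hx
      have h2 := Pool.Agent.Helper28.WA.low_lt σ k y hy
      omega
    rw [prod_range_succ]
    exact (rp_stack (U := σ.T k) (V := σ.T k) hW n).trans
      (Nat.mul_le_mul (ih _) ((σ.comp k).TT _))

/-- WA-18 -/
theorem rp_low_part {k k' N' : ℕ} (hk : k' < k) (hN : N' < σ.M k') (n : ℕ) :
    rp (σ.Low k) (σ.Part k' N') n ≤ (∏ j ∈ range k, σ.G j) * σ.H k' := by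
  induction k generalizing n with
  | zero => omega
  | succ k ih =>
    rcases Nat.lt_succ_iff_lt_or_eq.mp hk with h | h
    · have hW : ∀ x ∈ σ.Low k, ∀ y ∈ σ.Part k' N', x + y < σ.W k := by
        intro x hx y hy
        have h1 := Pool.Agent.Helper28.WA.low_lt σ k x hx
        have h2 := Pool.Agent.Helper28.WA.part_lt_W σ hN h y hy
        omega
      have e : rp (σ.Low (k + 1)) (σ.Part k' N') n =
          rp {m | ∃ x ∈ σ.Low k, ∃ u ∈ σ.T k, m = x + σ.W k * u}
            {m | ∃ y ∈ σ.Part k' N', ∃ v ∈ ({0} : Set ℕ), m = y + σ.W k * v} n := by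
        rw [← stack_zero]
        rfl
      rw [e]
      calc _ ≤ ((∏ j ∈ range k, σ.G j) * σ.H k') * σ.G k := (rp_stack hW n).trans
            (Nat.mul_le_mul (ih h _) ((rp_zero_le _ _).trans (G_pos σ k)))
        _ = (∏ j ∈ range (k + 1), σ.G j) * σ.H k' := by
            rw [prod_range_succ]
            ring
    · subst h
      have hW : ∀ x ∈ σ.Low k', ∀ y ∈ σ.Low k', x + y < σ.W k' := by
        intro x hx y hy
        have h1 := Pool.Agent.Helper28.WA.low_lt σ k' x hx
        have h2 := Pool.Agent.Helper28.WA.low_lt σ k' y hy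
        omega
      calc _ ≤ (∏ j ∈ range k', σ.G j) * (σ.G k' * σ.H k') :=
            (rp_stack (U := σ.T k') (V := σ.S k' N') hW n).trans
            (Nat.mul_le_mul (rp_low σ k' _) ((σ.comp k').TS N' hN _))
        _ = (∏ j ∈ range (k' + 1), σ.G j) * σ.H k' := by
            rw [prod_range_succ]
            ring

/-- WA-18 -/
theorem rp_part_part {k k' N N' : ℕ} (hkN : k' < k ∨ (k' = k ∧ N' ≤ N))
    (hN : N < σ.M k) (hN' : N' < σ.M k') (n : ℕ) :
    rp (σ.Part k N) (σ.Part k' N') n ≤ (∏ j ∈ range (k + 1), σ.G j) * σ.H k' := by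
  rcases hkN with h | ⟨rfl, h⟩
  · have hW : ∀ x ∈ σ.Low k, ∀ y ∈ σ.Part k' N', x + y < σ.W k := by
      intro x hx y hy
      have h1 := Pool.Agent.Helper28.WA.low_lt σ k x hx
      have h2 := Pool.Agent.Helper28.WA.part_lt_W σ hN' h y hy
      omega
    have e : rp (σ.Part k N) (σ.Part k' N') n =
        rp {m | ∃ x ∈ σ.Low k, ∃ u ∈ σ.S k N, m = x + σ.W k * u}
          {m | ∃ y ∈ σ.Part k' N', ∃ v ∈ ({0} : Set ℕ), m = y + σ.W k * v} n := by
      rw [← stack_zero]
      rfl
    rw [e]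
    calc _ ≤ ((∏ j ∈ range k, σ.G j) * σ.H k') * σ.G k := (rp_stack hW n).trans
          (Nat.mul_le_mul (rp_low_part σ h hN' _) ((rp_zero_le _ _).trans (G_pos σ k)))
      _ = (∏ j ∈ range (k + 1), σ.G j) * σ.H k' := by
          rw [prod_range_succ]
          ring
  · have hW : ∀ x ∈ σ.Low k', ∀ y ∈ σ.Low k', x + y < σ.W k' := by
      intro x hx y hy
      have h1 := Pool.Agent.Helper28.WA.low_lt σ k' x hx
      have h2 := Pool.Agent.Helper28.WA.low_lt σ k' y hy
      omega
    calc _ ≤ (∏ j ∈ range k', σ.G j) * (σ.G k' * σ.H k') :=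
          (rp_stack (U := σ.S k' N) (V := σ.S k' N') hW n).trans
          (Nat.mul_le_mul (rp_low σ k' _) ((σ.comp k').SS N N' h hN _))
      _ = (∏ j ∈ range (k' + 1), σ.G j) * σ.H k' := by
          rw [prod_range_succ]
          ring

end sys

end Pool.Agent.Helper3.WAR.Helper30.WA
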