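import Pool.Agent.Helper3.WA.Defs
import Pool.Agent.Helper3.WAR.Helper61Merge
import Pool.Agent.Helper48.ET.LocalSteps
import Pool.Agent.Helper67.WA.A1

set_option autoImplicit false

namespace Pool.Agent.Helper3.WAR.Helper7.WA

open Finset
open Pool.Agent.Helper48.ET
open Pool.Agent.Helper3.WA

variable {p : ℕ} [Fact p.Prime]

lemma mm_zero (C m : ℕ) : mm C (2 * m + 1) 0 = m := by
  unfold mm
  simp

/-- the last digit of an `LW` word in a sum -/
lemma top_sum {C n' n : ℕ} {θ' θ : Par p} (hn : n' + 2 ≤ n) {t w x : ℕ → ZMod p}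
    (hx : x ∈ SolG (PW C n' θ') (LW C n θ) t w) :
    ∑ v ∈ range n, θ.tau 0 2 v * x v =
      ∑ v ∈ range n, θ.tau 0 2 v * t v - (w n - θ.lam * t n ^ 2) := by
  obtain ⟨z, h1, h2⟩ := hx
  have e := h2.top
  have hx0 : x n = 0 := h1.xs n (by omega)
  have hz0 : z n = 0 := h1.zs n (by omega)
  have e1 : (t - x) n = t n := by rw [Pi.sub_apply, hx0, sub_zero]
  have e2 : (w - z) n = w n := by rw [Pi.sub_apply, hz0, sub_zero]
  rw [e1, e2] at e
  have e3 : ∑ v ∈ range n, θ.tau 0 2 v * (t - x) v =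
      ∑ v ∈ range n, θ.tau 0 2 v * t v - ∑ v ∈ range n, θ.tau 0 2 v * x v := by
    rw [← sum_sub_distrib]
    exact sum_congr rfl fun v _ => by rw [Pi.sub_apply, mul_sub]
  rw [e3] at e
  linear_combination e

/-- the case of small differences -/
theorem far_small {C : ℕ} (hC : 8 ≤ C) {n' n s : ℕ} (θ' : Par p) (hn : n' + 2 ≤ n)
    (hs : s ≤ 3) (h1 : mm C (2 * n' + 1) (s + 1) = mm C (2 * n + 1) (s + 1)) :
    ∃ Q : MvPolynomial (Option (ℕ × ℕ × ℕ)) (Om p), Q ≠ 0 ∧ Q.totalDegree ≤ Del C ∧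
      ∀ θ : Par p, MvPolynomial.eval θ.val Q ≠ 0 → ∀ t w : ℕ → ZMod p,
        FB (SolG (PW C n' θ') (LW C n θ) t w)
          (C ^ (s + 1) * mm C (2 * n + 1) (s + 1)) (n' + 2) (N0 C) := by
  classical
  have hC0 : 0 < C := by omega
  obtain ⟨R0, hR0⟩ : ∃ R0, R0 = C ^ (s + 1 - 0) * mm C (2 * n + 1) (s + 1) := ⟨_, rfl⟩
  have hR0' : R0 = C ^ (s + 1 - 0) * mm C (2 * n' + 1) (s + 1) := by rw [hR0, h1]
  have hRn : R0 ≤ n' := by
    have := K.region_le hC0 (2 * n' + 1) 0 0 (s + 1) le_rfl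
    rw [Nat.zero_add, ← hR0', Nat.sub_self, pow_zero, one_mul, mm_zero] at this
    exact this
  obtain ⟨M, W, hMW, H⟩ := region_struct (p := p) (by omega : 2 ≤ C) (2 * n + 1) 0 0 s le_rfl
    (by omega)
  obtain ⟨M1, W1, hMW1, H1⟩ := region_struct (p := p) (by omega : 2 ≤ C) (2 * n' + 1) 0 0 s le_rfl
    (by omega)
  rw [← hR0, Nat.sub_self, pow_zero, one_mul, mm_zero] at hMW H
  rw [← hR0', Nat.sub_self, pow_zero, one_mul, mm_zero] at H1
  obtain ⟨Λ1, hΛ1⟩ := H1 θ'
  have hsz : n - R0 ≤ 2 * C ^ 4 := by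
    have := K.region_size hC (κ := 2 * n + 1) (h := 0) (h' := 0) (s := s) le_rfl (by omega)
      (by omega)
    rw [← hR0, Nat.sub_self, pow_zero, one_mul, mm_zero] at this
    exact this
  obtain ⟨T1, hT1⟩ : ∃ T1, T1 = n' - R0 := ⟨_, rfl⟩
  rw [← hT1] at hΛ1
  have hRT : R0 + T1 = n' := by omega
  refine Exists.elim (Pool.Agent.Helper67.WA.ls_gen hC (PW C n' θ') (fun θ => LW C n θ) (θ'.val none)
    0 0 2 R0 (T1 + 1) (T1 + 2) (n - R0) 1 (n' + 2) (by omega) (by omega) (by omega) hsz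
    (by rw [pow_zero, one_mul]; omega) M W
    (StructAux.bd T1 M1 (fun _ _ => 1)) (StructAux.bd T1 W1 (fun _ _ => 1))
    (fun j u => if j < T1 then (if u < n' then Λ1 j u else 0) else
      (if u < n' then θ'.val (some (0, 2, u)) else 0)) hMW ?_ ?_ ?_ ?_) ?_
  · -- `ha`
    intro y z hyz j hj
    have hext : ∀ f : ℕ → Om p, ∑ u ∈ range (R0 + (T1 + 1)), (if u < n' then f u else 0) *
        cell p C y 0 u = ∑ u ∈ range n', f u * cell p C y 0 u := by
      intro f
      rw [show R0 + (T1 + 1) = n' + 1 by omega, sum_range_succ, if_neg (by omega), zero_mul,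
        add_zero]
      exact sum_congr rfl fun u hu => by rw [if_pos (mem_range.1 hu)]
    rcases lt_or_ge j T1 with hj1 | hj1
    · rw [hΛ1 y z (fun i _ _ => hyz.rel i) j hj1, StructAux.Qf_bd_l hj1]
      congr 1
      simp only [if_pos hj1]
      rw [hext]
    · have hjT : j = T1 := by omega
      have e1 : R0 + j = n' := by omega
      rw [e1, hjT]
      have e0 : Qf (T1 + 1) (StructAux.bd T1 M1 (fun _ _ => 1))
          (StructAux.bd T1 W1 (fun _ _ => 1)) (fun k => cell p C y 0 (R0 + k)) T1 =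
          Qf 1 (fun _ _ => (1 : Om p)) (fun _ _ => 1) (fun k => cell p C y 0 (R0 + (T1 + k))) 0 :=
        StructAux.Qf_bd_r (T := T1) (T' := 1) (j := 0) (fun k => cell p C y 0 (R0 + k))
      rw [e0]
      simp only [lt_irrefl, if_false]
      rw [hext (fun u => θ'.val (some (0, 2, u)))]
      have e2 : Qf 1 (fun _ _ => (1 : Om p)) (fun _ _ => 1) (fun k => cell p C y 0 (R0 + (T1 + k)))
          0 = cell p C y 0 n' ^ 2 := by
        unfold Qf
        simp only [range_one, sum_singleton, one_mul, Nat.add_zero]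
        rw [hRT]
      rw [e2]
      have e3 := hyz.top
      change algebraMap (ZMod p) (Om p) (z n') = algebraMap (ZMod p) (Om p) θ'.lam *
        algebraMap (ZMod p) (Om p) (y n') ^ 2 + ∑ u ∈ range n',
          algebraMap (ZMod p) (Om p) (θ'.tau 0 2 u) * algebraMap (ZMod p) (Om p) (y u)
      rw [e3, map_add, map_mul, map_pow, map_sum]
      congr 1
      exact sum_congr rfl fun u _ => by rw [map_mul]
  · -- `hb`
    intro θ
    obtain ⟨Λ, hΛ⟩ := H θ
    refine ⟨Λ, fun y z hyz j hj => ?_⟩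
    rw [hΛ y z (fun i _ _ => hyz.rel i) j hj]
    congr 2
    have : R0 + (n - R0) = n := by omega
    rw [this]
  · -- `hc`
    intro y z hyz k hk hk'
    refine ⟨K.cell_zero hC0 (N := n' + 2) (fun v hv => hyz.xs v (by omega)) ?_,
      K.cell_zero hC0 (N := n' + 2) (fun v hv => hyz.zs v (by omega)) ?_⟩ <;>
    · rw [pow_zero, one_mul]
      omega
  · -- `hd`
    intro θ t w x hx y hy hxy r hr
    have hr0 : r = 0 := by omega
    subst hr0
    have ex := top_sum hn hx
    have ey := top_sum hn hy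
    rw [← ex] at ey
    have hx1 : ∀ u, n' + 2 ≤ u → x u = 0 := by
      obtain ⟨z, h, _⟩ := hx
      exact fun u hu => h.xs u (by omega)
    have hy1 : ∀ u, n' + 2 ≤ u → y u = 0 := by
      obtain ⟨z, h, _⟩ := hy
      exact fun u hu => h.xs u (by omega)
    have hpre : ∀ u < R0, y u = x u := by
      intro u hu
      have h5 := congrFun hxy u
      have h6 : u < C ^ 0 * R0 := by rw [pow_zero, one_mul]; exact hu
      simpa [trunc, h6, hu] using h5
    have hsum : ∀ f : ℕ → ZMod p, (∀ u < R0, f u = 0) → (∀ u, n' + 2 ≤ u → f u = 0) →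
        ∑ v ∈ range n, f v = ∑ k ∈ range (T1 + 2), f (R0 + k) := by
      intro f hf1 hf2
      have e : n = R0 + ((T1 + 2) + (n - (n' + 2))) := by omega
      rw [e, sum_range_add, sum_range_add,
        sum_eq_zero (fun u hu => hf1 u (mem_range.1 hu)), zero_add]
      have : ∑ u ∈ range (n - (n' + 2)), f (R0 + (T1 + 2 + u)) = 0 :=
        sum_eq_zero fun u _ => hf2 _ (by omega)
      rw [this, add_zero]
    have hdiff : ∑ v ∈ range n, θ.tau 0 2 v * (y v - x v) = 0 := by
      rw [← sub_eq_zero.2 ey, ← sum_sub_distrib]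
      exact sum_congr rfl fun v _ => by ring
    rw [hsum (fun v => θ.tau 0 2 v * (y v - x v))
      (fun u hu => by rw [hpre u hu, sub_self, mul_zero])
      (fun u hu => by rw [hx1 u hu, hy1 u hu, sub_self, mul_zero])] at hdiff
    have h7 := congrArg (algebraMap (ZMod p) (Om p)) hdiff
    rw [map_sum, map_zero] at h7
    rw [← sub_eq_zero, ← sum_sub_distrib, ← h7]
    refine sum_congr rfl fun k _ => ?_
    change algebraMap (ZMod p) (Om p) (θ.tau 0 (0 + 2) (R0 + k)) *
      algebraMap (ZMod p) (Om p) (y (R0 + k)) -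
      algebraMap (ZMod p) (Om p) (θ.tau 0 (0 + 2) (R0 + k)) *
      algebraMap (ZMod p) (Om p) (x (R0 + k)) = _
    rw [map_mul, map_sub, Nat.zero_add]
    ring
  · rintro Q ⟨hQ0, hQd, hQ⟩
    refine ⟨Q, hQ0, hQd, ?_⟩
    intro θ hθ t w
    have := hQ θ hθ t w (Pool.Agent.Helper3.WAR.Helper61.WA.solG_finite (LW C n θ) t w)
    rw [pow_zero, one_mul] at this
    rw [hR0, Nat.sub_zero] at this
    exact this

/-- the case of large differences -/
theorem far_large {C : ℕ} (hC : 8 ≤ C) {n' n g s : ℕ} (θ' : Par p) (hg : 1 ≤ g)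
    (hs : g + 1 ≤ s) (hs3 : s ≤ g + 3)
    (h1 : mm C (2 * n' + 1) (s + 1) = mm C (2 * n + 1) (s + 1))
    (hD : 2 * n' + 1 + 4 * C ^ (g + 1) ≤ 2 * n + 1) :
    ∃ Q : MvPolynomial (Option (ℕ × ℕ × ℕ)) (Om p), Q ≠ 0 ∧ Q.totalDegree ≤ Del C ∧
      ∀ θ : Par p, MvPolynomial.eval θ.val Q ≠ 0 → ∀ t w : ℕ → ZMod p,
        FB (SolG (PW C n' θ') (LW C n θ) t w)
          (C ^ (s + 1) * mm C (2 * n + 1) (s + 1)) (n' + 2) (N0 C) := by
  have hC0 : 0 < C := by omega
  have hCg : 0 < C ^ g := by positivity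
  have hCg8 : 8 ≤ C ^ g := hC.trans (by
    calc C = C ^ 1 := (pow_one C).symm
      _ ≤ C ^ g := Nat.pow_le_pow_right hC0 hg)
  have hCg1 : 8 ≤ C ^ (g + 1) := hCg8.trans (Nat.pow_le_pow_right hC0 (by omega))
  obtain ⟨R0, hR0⟩ : ∃ R0, R0 = C ^ (s + 1 - g) * mm C (2 * n + 1) (s + 1) := ⟨_, rfl⟩
  have hR0' : R0 = C ^ (s + 1 - g) * mm C (2 * n' + 1) (s + 1) := by rw [hR0, h1]
  obtain ⟨E, hE⟩ : ∃ E, E = C ^ (g + 1 - g) * mm C (2 * n + 1) (g + 1) := ⟨_, rfl⟩
  obtain ⟨E', hE'⟩ : ∃ E', E' = C ^ (g - g) * mm C (2 * n' + 1) g := ⟨_, rfl⟩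
  have hRE : R0 ≤ E := by
    obtain ⟨d, hd⟩ := Nat.exists_eq_add_of_le (by omega : g + 1 ≤ s + 1)
    have := K.region_le hC0 (2 * n + 1) g (g + 1) d (by omega)
    rw [← hd] at this
    rw [hR0, hE]
    exact this
  have hRE' : R0 ≤ E' := by
    obtain ⟨d, hd⟩ := Nat.exists_eq_add_of_le (by omega : g ≤ s + 1)
    have := K.region_le hC0 (2 * n' + 1) g g d le_rfl
    rw [← hd] at this
    rw [hR0', hE']
    exact this
  obtain ⟨M, W, hMW, H⟩ := region_struct (p := p) (by omega : 2 ≤ C) (2 * n + 1) g (g + 1) s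
    (by omega) (by omega)
  obtain ⟨M', W', _, H'⟩ := region_struct (p := p) (by omega : 2 ≤ C) (2 * n' + 1) g g s
    le_rfl (by omega)
  rw [← hR0, ← hE] at hMW H
  rw [← hR0', ← hE'] at H'
  obtain ⟨Λ', hΛ'⟩ := H' θ'
  have hsz : E - R0 ≤ 2 * C ^ 4 := by
    rw [hE, hR0]
    exact K.region_size hC (by omega) (by omega) hs3
  have e1 : C ^ (s + 1) * mm C (2 * n + 1) (s + 1) = C ^ g * R0 := by
    rw [hR0, ← mul_assoc, ← pow_add]
    congr 2
    omega
  have e2 : E' = mm C (2 * n' + 1) g := by rw [hE', Nat.sub_self, pow_zero, one_mul]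
  have e3 : E = C * mm C (2 * n + 1) (g + 1) := by
    rw [hE, Nat.add_sub_cancel_left, pow_one]
  -- `a` ends below the block `g` of `b`
  have f1 : n' + 2 ≤ C ^ g * E := by
    have h5 := lt_mm hC0 (2 * n + 1) (g + 1)
    have e4 : 2 * C ^ (g + 1) * mm C (2 * n + 1) (g + 1) = 2 * (C ^ g * E) := by
      rw [e3, pow_succ]; ring
    omega
  have f2 : C ^ g * E' ≤ n' + 2 := by
    have h5 := mm_le hC0 (2 * n' + 1) g
    have e4 : 2 * C ^ g * mm C (2 * n' + 1) g = 2 * (C ^ g * E') := by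
      rw [e2]; ring
    omega
  have f3 : n' + 2 ≤ C ^ g * (E' + 2) := by
    have h5 := lt_mm hC0 (2 * n' + 1) g
    have e4 : 2 * C ^ g * mm C (2 * n' + 1) g = 2 * (C ^ g * E') := by
      rw [e2]; ring
    have e5 : C ^ g * (E' + 2) = C ^ g * E' + 2 * C ^ g := by ring
    omega
  have hEE : E' ≤ E := Nat.le_of_mul_le_mul_left (f2.trans f1) hCg
  have hmm1 : 1 ≤ mm C (2 * n + 1) (g + 1) := by
    rcases Nat.eq_zero_or_pos (mm C (2 * n + 1) (g + 1)) with h0 | h0
    · rw [e3, h0, mul_zero, mul_zero] at f1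
      omega
    · exact h0
  have hcc := two_le_cc hC hmm1
  have hq' : n' + 2 ≤ C ^ g * (R0 + min (E' - R0 + 2) (E - R0)) := by
    rcases le_total (E' - R0 + 2) (E - R0) with h5 | h5
    · rw [min_eq_left h5]
      refine f3.trans (Nat.mul_le_mul_left _ (by omega))
    · rw [min_eq_right h5]
      refine f1.trans (Nat.mul_le_mul_left _ (by omega))
  obtain ⟨Q, hQ0, hQd, hQ⟩ := Pool.Agent.Helper67.WA.ls_gen hC (PW C n' θ') (fun θ => LW C n θ) (θ'.val none)
    g g 0 R0 (E' - R0) (min (E' - R0 + 2) (E - R0)) (E - R0) 2 (n' + 2) (by omega)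
    (min_le_right _ _) (min_le_left _ _) hsz hq' M W M' W' Λ' hMW
    (by
      intro y z hyz j hj
      rw [hΛ' y z (fun i _ _ => hyz.rel i) j hj, Nat.add_sub_cancel' hRE'])
    (by
      intro θ
      obtain ⟨Λ, hΛ⟩ := H θ
      refine ⟨Λ, fun y z hyz j hj => ?_⟩
      rw [hΛ y z (fun i _ _ => hyz.rel i) j hj, Nat.add_sub_cancel' hRE])
    (fun y z hyz k hk hk' => by
      have h5 : n' + 2 ≤ C ^ g * (R0 + k) :=
        hq'.trans (Nat.mul_le_mul_left _ (by omega))
      exact ⟨K.cell_zero hC0 (fun v hv => hyz.xs v (by omega)) h5,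
        K.cell_zero hC0 (fun v hv => hyz.zs v (by omega)) h5⟩)
    (by
      intro θ t w x hx y hy hxy r hr
      obtain ⟨zx, hx1, hx2⟩ := hx
      obtain ⟨zy, hy1, hy2⟩ := hy
      have rx := hx2.rel g
      have ry := hy2.rel g
      have sx : ∀ u, n' + 2 ≤ u → x u = 0 := fun u hu => hx1.xs u (by omega)
      have sy : ∀ u, n' + 2 ≤ u → y u = 0 := fun u hu => hy1.xs u (by omega)
      have szx : ∀ u, n' + 2 ≤ u → zx u = 0 := fun u hu => hx1.zs u (by omega)
      have szy : ∀ u, n' + 2 ≤ u → zy u = 0 := fun u hu => hy1.zs u (by omega)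
      -- visible cells
      have hvis : ∀ v z' : ℕ → ZMod p, (∀ u, n' + 2 ≤ u → z' u = 0) → ∀ k,
          cell p C (v - z') g (C * mm C (2 * n + 1) (g + 1) + k) =
            cell p C v g (C * mm C (2 * n + 1) (g + 1) + k) := by
        intro v z' hz' k
        rw [cell_sub, K.cell_zero hC0 hz', sub_zero]
        rw [← e3]
        exact f1.trans (Nat.mul_le_mul_left _ (by omega))
      unfold BlockRel at rx ry
      have htw : ∑ k ∈ range (cc C (2 * n + 1) g),
          (tw C (2 * n + 1) θ (t - x) g k - tw C (2 * n + 1) θ (t - y) g k) *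
            eb p (C ^ g) (cc C (2 * n + 1) g) k = 0 := by
        have q1 : ∀ v z' : ℕ → ZMod p, (∀ u, n' + 2 ≤ u → v u = 0) →
            (∀ u, n' + 2 ≤ u → z' u = 0) →
            ∑ k ∈ range (cc C (2 * n + 1) g),
              (cell p C (w - z') g (C * mm C (2 * n + 1) (g + 1) + k) -
                tw C (2 * n + 1) θ (t - v) g k) * eb p (C ^ g) (cc C (2 * n + 1) g) k =
            θ.val none * (∑ k ∈ range (cc C (2 * n + 1) g),
              cell p C (t - v) g (C * mm C (2 * n + 1) (g + 1) + k) *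
                eb p (C ^ g) (cc C (2 * n + 1) g) k) ^ 2 →
            ∑ k ∈ range (cc C (2 * n + 1) g),
              tw C (2 * n + 1) θ (t - v) g k * eb p (C ^ g) (cc C (2 * n + 1) g) k =
            ∑ k ∈ range (cc C (2 * n + 1) g),
              cell p C w g (C * mm C (2 * n + 1) (g + 1) + k) *
                eb p (C ^ g) (cc C (2 * n + 1) g) k -
            θ.val none * (∑ k ∈ range (cc C (2 * n + 1) g),
              cell p C t g (C * mm C (2 * n + 1) (g + 1) + k) *
                eb p (C ^ g) (cc C (2 * n + 1) g) k) ^ 2 := by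
          intro v z' hv hz' hrel
          have s1 : ∑ k ∈ range (cc C (2 * n + 1) g),
              (cell p C (w - z') g (C * mm C (2 * n + 1) (g + 1) + k) -
                tw C (2 * n + 1) θ (t - v) g k) * eb p (C ^ g) (cc C (2 * n + 1) g) k =
              ∑ k ∈ range (cc C (2 * n + 1) g),
              cell p C w g (C * mm C (2 * n + 1) (g + 1) + k) *
                eb p (C ^ g) (cc C (2 * n + 1) g) k -
              ∑ k ∈ range (cc C (2 * n + 1) g),
              tw C (2 * n + 1) θ (t - v) g k * eb p (C ^ g) (cc C (2 * n + 1) g) k := by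
            rw [← sum_sub_distrib]
            exact sum_congr rfl (fun k _ => by rw [hvis w z' hz' k, sub_mul])
          have s2 : ∑ k ∈ range (cc C (2 * n + 1) g),
              cell p C (t - v) g (C * mm C (2 * n + 1) (g + 1) + k) *
                eb p (C ^ g) (cc C (2 * n + 1) g) k =
              ∑ k ∈ range (cc C (2 * n + 1) g),
              cell p C t g (C * mm C (2 * n + 1) (g + 1) + k) *
                eb p (C ^ g) (cc C (2 * n + 1) g) k :=
            sum_congr rfl (fun k _ => by rw [hvis t v hv k])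
          rw [s1, s2] at hrel
          linear_combination -hrel
        have q2 := q1 x zx sx szx rx
        have q3 := q1 y zy sy szy ry
        rw [sum_congr rfl (fun k _ => sub_mul _ _ _), sum_sub_distrib, q2, q3, sub_self]
      have hind := (eb_spec (p := p) (m := C ^ g) (c := cc C (2 * n + 1) g) hCg
        (by omega)).indep _ (fun k => Subfield.sub_mem _ (K.tw_mem hC0 _ θ (t - x) g k)
          (K.tw_mem hC0 _ θ (t - y) g k)) htw r (by omega)
      unfold tw at hind
      rw [if_pos hr, if_pos hr, ← e3, ← sum_sub_distrib] at hind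
      have h6 : ∑ u ∈ range E, θ.val (some (g, r, u)) * (cell p C y g u - cell p C x g u) = 0 := by
        rw [← hind]
        apply sum_congr rfl
        intro u _
        rw [cell_sub, cell_sub]
        ring
      have hE2 : E = R0 + (E - R0) := by omega
      rw [hE2, Finset.sum_range_add] at h6
      have h7 : ∑ u ∈ range R0, θ.val (some (g, r, u)) * (cell p C y g u - cell p C x g u) = 0 := by
        apply sum_eq_zero
        intro u hu
        have : cell p C y g u = cell p C x g u := by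
          apply cell_congr hC0
          intro v _ hv
          have h8 := congrFun hxy v
          have h9 : v < C ^ g * R0 := by
            calc v < (u + 1) * C ^ g := hv
              _ ≤ R0 * C ^ g := Nat.mul_le_mul_right _ (mem_range.mp hu)
              _ = C ^ g * R0 := mul_comm _ _
          simpa [trunc, h9] using h8
        rw [this, sub_self, mul_zero]
      have h8 : ∑ k ∈ range (E - R0), θ.val (some (g, r, R0 + k)) *
          (cell p C y g (R0 + k) - cell p C x g (R0 + k)) =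
          ∑ k ∈ range (min (E' - R0 + 2) (E - R0)), θ.val (some (g, r, R0 + k)) *
          (cell p C y g (R0 + k) - cell p C x g (R0 + k)) := by
        refine (sum_subset (range_subset_range.mpr (min_le_right _ _)) ?_).symm
        intro k _ hk
        have h9 : n' + 2 ≤ C ^ g * (R0 + k) := hq'.trans (Nat.mul_le_mul_left _ (by
          have : min (E' - R0 + 2) (E - R0) ≤ k := not_lt.mp (fun h => hk (mem_range.mpr h))
          omega))
        rw [K.cell_zero hC0 sy h9, K.cell_zero hC0 sx h9, sub_self, mul_zero]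
      rw [h7, zero_add, h8] at h6
      rw [← sub_eq_zero, ← sum_sub_distrib, ← h6]
      exact sum_congr rfl (fun k _ => by rw [Nat.add_zero]; ring))
  refine ⟨Q, hQ0, hQd, ?_⟩
  intro θ hθ t w
  rw [e1]
  exact hQ θ hθ t w (Pool.Agent.Helper3.WAR.Helper61.WA.solG_finite (LW C n θ) t w)

/-- WA-5 -/
theorem far_final {C : ℕ} (hC : 8 ≤ C) {n' n e s : ℕ} (θ' : Par p) (hn : n' + 2 ≤ n)
    (he : 1 ≤ e) (he1 : 2 * n + 1 ≤ 2 * n' + 1 + C ^ e) (he2 : 2 * n' + 1 + C ^ (e - 1) < 2 * n + 1)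
    (hs : s + 1 = e ∨ s = e)
    (h1 : mm C (2 * n' + 1) (s + 1) = mm C (2 * n + 1) (s + 1)) :
    ∃ Q : MvPolynomial (Option (ℕ × ℕ × ℕ)) (Om p), Q ≠ 0 ∧ Q.totalDegree ≤ Del C ∧
      ∀ θ : Par p, MvPolynomial.eval θ.val Q ≠ 0 → ∀ t w : ℕ → ZMod p,
        FB (SolG (PW C n' θ') (LW C n θ) t w)
          (C ^ (s + 1) * mm C (2 * n + 1) (s + 1)) (n' + 2) (N0 C) := by
  rcases le_or_gt e 3 with h3 | h3
  · exact far_small hC θ' hn (by omega) h1
  · obtain ⟨g, rfl⟩ : ∃ g, e = g + 3 := ⟨e - 3, by omega⟩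
    refine far_large hC (g := g) θ' (by omega) (by omega) (by omega) h1 ?_
    have e4 : g + 3 - 1 = g + 1 + 1 := by omega
    rw [e4, pow_succ] at he2
    have : C ^ (g + 1) * 8 ≤ C ^ (g + 1) * C := Nat.mul_le_mul_left _ hC
    omega

end Pool.Agent.Helper3.WAR.Helper7.WA
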