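import Pool.Agent.Helper28.WA.Part
import Pool.Agent.Helper3.WA.Defs
import Pool.Agent.Helper3.WAR.Comp
import Pool.Agent.Helper3.WAR.Helper71Loss
import Pool.Agent.Helper59.WA.LowerComb
import Pool.Agent.Helper85.WA.Par

/-! Project WA: pieces WA-23 (`sys_exists`) and WA-27 (`lower`). -/

set_option autoImplicit false

namespace Pool.Agent.Helper3.WAR.Helper8.WA

open Finset Filter
open Pool.Agent.Helper48.ET
open Pool.Agent.Helper3.WT (rp GG P0)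
open Pool.Agent.Helper3.WA
open Pool.Agent.Helper85.WA (paramsA)
open Pool.Agent.Helper3.WAR (comp_exists)
open Pool.Agent.Helper59.WA (lower_comb)
open Pool.Agent.Helper3.WAR.Helper71.WA (loss)
open Pool.Agent.Helper28.WA (part_card part_lt)

lemma P0_mono {C M M' : ℕ} (h : M ≤ M') : P0 C M ≤ P0 C M' := by
  unfold P0
  exact Nat.add_le_add_right (Nat.mul_le_mul_right _ h) _

lemma GG_mono {C M M' : ℕ} (h : M ≤ M') : GG C M ≤ GG C M' := by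
  unfold GG
  apply Nat.mul_le_mul_right
  apply Nat.pow_le_pow_right (by norm_num)
  exact Nat.add_le_add_right (Nat.log_mono_right h) _

lemma GG_pos (C M : ℕ) : 1 ≤ GG C M := by
  unfold GG N0
  have : 0 < 2 ^ (Nat.log C M + 1) * ((2 * C ^ 4 + 1) ^ (2 * C ^ 4)) ^ 2 := by positivity
  omega

lemma four_le_P0 {C M : ℕ} (hC : 8 ≤ C) : 4 * M ≤ P0 C M := by
  unfold P0
  have h1 : 2 ≤ Del C := by
    unfold Del
    have h2 : 1 ≤ C ^ 4 := Nat.one_le_pow _ _ (by omega)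
    calc 2 ≤ (2 * C ^ 4 + 2) ^ 1 := by rw [pow_one]; omega
      _ ≤ (2 * C ^ 4 + 2) ^ (2 * C ^ 4) := Nat.pow_le_pow_right (by omega) (by omega)
  nlinarith

section arith

variable {α : ℝ} {m : ℕ}

lemma ceil_le (h0 : 0 < α) : ⌈(1 - α) * m⌉₊ ≤ m := by
  apply Nat.ceil_le.2
  nlinarith [Nat.cast_nonneg (α := ℝ) m]

lemma half_le_ceil (h1 : α ≤ 1 / 2) : m / 2 ≤ ⌈(1 - α) * m⌉₊ := by
  have h2 : ((m / 2 : ℕ) : ℝ) ≤ (1 - α) * m := by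
    have h3 : ((m / 2 : ℕ) : ℝ) ≤ (m : ℝ) / 2 := Nat.cast_div_le
    nlinarith [Nat.cast_nonneg (α := ℝ) m]
  exact_mod_cast h2.trans (Nat.le_ceil _)

lemma floor_le_ceil (h0 : 0 < α) (h1 : α ≤ 1 / 2) : ⌊α * m⌋₊ ≤ ⌈(1 - α) * m⌉₊ := by
  have h2 : ((⌊α * m⌋₊ : ℕ) : ℝ) ≤ α * m := Nat.floor_le (by positivity)
  have h3 : (1 - α) * m ≤ ((⌈(1 - α) * m⌉₊ : ℕ) : ℝ) := Nat.le_ceil _
  have h4 : α * m ≤ (1 - α) * m := by nlinarith [Nat.cast_nonneg (α := ℝ) m]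
  exact_mod_cast h2.trans (h4.trans h3)

end arith

/-- WA-23 (Bertrand, `comp_exists`, `paramsA`) -/
theorem sys_exists {α : ℝ} (h0 : 0 < α) (h1 : α ≤ 1 / 2) : ∃ (σ : SysA) (j : ℕ → ℕ),
    SizedA α σ j ∧
    (∀ e : ℝ, 0 < e → ∀ᶠ k in atTop, (j (k + 1) : ℝ) ≤ (1 + e) * j k) ∧
    (∀ e : ℝ, 0 < e → ∀ᶠ k in atTop,
      ∑ i ∈ range (k + 1), Real.logb 2 (σ.G i : ℝ) ≤ e * j k) := by
  obtain ⟨j, C, hj0, hC8, hCe, hmono, hP0, hr, hG⟩ := paramsA ⌈4 / α⌉₊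
  have hj : ∀ k, ⌈4 / α⌉₊ ≤ j k := by
    intro k
    induction k with
    | zero => exact hj0
    | succ k ih => exact ih.trans (hmono k).le
  have hlam : ∀ k, 4 ≤ ⌊α * j k⌋₊ := by
    intro k
    apply Nat.le_floor
    have h2 : 4 / α ≤ (j k : ℝ) := (Nat.le_ceil _).trans (by exact_mod_cast hj k)
    rw [div_le_iff₀ h0] at h2
    push_cast
    linarith
  set δ : ℕ → ℕ := fun k => ⌈(1 - α) * j k⌉₊ with hδ
  have hδj : ∀ k, δ k ≤ j k := fun k => ceil_le h0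
  have hjδ : ∀ k, j k / 2 ≤ δ k := fun k => half_le_ceil h1
  have hB : ∀ k, ∃ p : ℕ, p.Prime ∧ 2 ^ 2 ^ δ k < p ∧ p ≤ 2 * 2 ^ 2 ^ δ k := fun k =>
    Nat.exists_prime_lt_and_le_two_mul _ (by positivity)
  choose p hpp hp1 hp2 using hB
  have hp3 : ∀ k, p k ≤ 2 ^ (2 ^ δ k + 1) := by
    intro k
    rw [pow_succ, mul_comm]
    exact hp2 k
  have hMle : ∀ k, 2 ^ (j (k + 1) - δ k) ≤ 2 ^ j (k + 1) := fun k =>
    Nat.pow_le_pow_right (by norm_num) (Nat.sub_le _ _)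
  have hcomp : ∀ k, ∃ (T : Set ℕ) (S : ℕ → Set ℕ),
      CompA (p k) (2 ^ (j (k + 1) - δ k)) (GG (C k) (2 ^ (j (k + 1) - δ k)))
        (16 * (2 ^ δ k / 2 ^ (⌊α * j k⌋₊ - 1)) + 32)
        (p k / (2 * 2 ^ (j (k + 1) - δ k))) (2 ^ (⌊α * j k⌋₊ - 1)) T S := by
    intro k
    have h2 : P0 (C k) (2 ^ (j (k + 1) - δ k)) < p k := by
      refine (P0_mono (hMle k)).trans_lt ((hP0 k).trans ((hp1 k).trans_le' ?_))
      exact Nat.pow_le_pow_right (by norm_num) (Nat.pow_le_pow_right (by norm_num) (hjδ k))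
    have h3 : 4 * 2 ^ (j (k + 1) - δ k) ≤ p k := (four_le_P0 (hC8 k)).trans h2.le
    have h4 : 2 ≤ 2 ^ (j (k + 1) - δ k) := by
      have h5 := hmono k
      have h6 := hδj k
      calc 2 = 2 ^ 1 := rfl
        _ ≤ 2 ^ (j (k + 1) - δ k) := Nat.pow_le_pow_right (by norm_num) (by omega)
    have h5 : 6 ≤ 2 ^ (⌊α * j k⌋₊ - 1) := by
      have h6 := hlam k
      calc 6 ≤ 2 ^ 3 := by norm_num
        _ ≤ 2 ^ (⌊α * j k⌋₊ - 1) := Nat.pow_le_pow_right (by norm_num) (by omega)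
    exact comp_exists (hC8 k) (hCe k) h4 (hpp k) h2 h3 (hp3 k) h5
  choose T S hTS using hcomp
  refine ⟨⟨p, fun k => 2 ^ (j (k + 1) - δ k), fun k => GG (C k) (2 ^ (j (k + 1) - δ k)),
    fun k => 16 * (2 ^ δ k / 2 ^ (⌊α * j k⌋₊ - 1)) + 32,
    fun k => p k / (2 * 2 ^ (j (k + 1) - δ k)), fun k => 2 ^ (⌊α * j k⌋₊ - 1), T, S, hTS⟩, j,
    ⟨hmono, hlam, fun _ => rfl, hp1, hp3, fun _ => rfl, fun _ => rfl⟩, hr, ?_⟩
  intro e he
  filter_upwards [hG e he] with k hk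
  refine le_trans (sum_le_sum fun i _ => ?_) hk
  apply Real.logb_le_logb_of_le (by norm_num)
  · exact_mod_cast GG_pos (C i) (2 ^ (j (i + 1) - δ i))
  · exact_mod_cast GG_mono (hMle i)

/-- WA-27 -/
theorem lower {α : ℝ} (h0 : 0 < α) (h1 : α ≤ 1 / 2) {σ : SysA} {j : ℕ → ℕ} (hs : SizedA α σ j)
    (hr : ∀ e : ℝ, 0 < e → ∀ᶠ k in atTop, (j (k + 1) : ℝ) ≤ (1 + e) * j k) :
    ∀ e : ℝ, 0 < e → ∀ᶠ x : ℕ in atTop,
      Real.sqrt x * Real.exp (-(Real.log x ^ (α + e))) ≤ ((σ.A ∩ Set.Iio x).ncard : ℝ) := by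
  intro e he
  have hl : ∀ k, 2 ^ (2 * σ.l k + 8) ≤ (2 * σ.p k) ^ 2 := by
    intro k
    have h2 := hs.lam k
    have h3 : ⌊α * j k⌋₊ ≤ ⌈(1 - α) * j k⌉₊ := floor_le_ceil h0 h1
    have h4 : 2 * σ.l k = 2 ^ ⌊α * j k⌋₊ := by
      rw [hs.l_eq, ← pow_succ']
      congr 1
      omega
    have h5 : 2 ^ ⌊α * j k⌋₊ ≤ 2 ^ ⌈(1 - α) * j k⌉₊ := Nat.pow_le_pow_right (by norm_num) h3
    have h6 : 2 ^ 4 ≤ 2 ^ ⌊α * j k⌋₊ := Nat.pow_le_pow_right (by norm_num) h2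
    have h7 := (hs.p_gt k).le
    calc 2 ^ (2 * σ.l k + 8) ≤ 2 ^ (2 * (2 ^ ⌈(1 - α) * j k⌉₊)) := by
          apply Nat.pow_le_pow_right (by norm_num)
          omega
      _ = (2 ^ 2 ^ ⌈(1 - α) * j k⌉₊) ^ 2 := by rw [← pow_mul, mul_comm]
      _ ≤ (2 * σ.p k) ^ 2 := Nat.pow_le_pow_left (by omega) 2
  have hm : ∀ k, σ.l k ≤ σ.l (k + 1) := by
    intro k
    rw [hs.l_eq, hs.l_eq]
    apply Nat.pow_le_pow_right (by norm_num)
    apply Nat.sub_le_sub_right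
    apply Nat.floor_le_floor
    apply mul_le_mul_of_nonneg_left _ h0.le
    exact_mod_cast (hs.mono k).le
  filter_upwards [loss h0 h1 hs hr e he,
    eventually_ge_atTop (σ.W 1 * 2 ^ (2 * σ.l 1 + 8))] with x hx1 hx2
  obtain ⟨K, N, y, hK, hNM, hy1, hy2, hle, hlt, hmain⟩ := lower_comb σ hx2 hl hm
  have hWx : σ.W K ≤ x := by
    refine le_trans ?_ hle
    have h2 : 0 < (2 * σ.p K) ^ (2 * N) := by
      have h3 : 0 < σ.p K := (Nat.zero_le _).trans_lt (hs.p_gt K)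
      positivity
    have h4 : 0 < y := lt_of_lt_of_le (by positivity) hy1
    calc σ.W K = σ.W K * 1 * 1 := by ring
      _ ≤ σ.W K * (2 * σ.p K) ^ (2 * N) * y :=
        Nat.mul_le_mul (Nat.mul_le_mul_left _ h2) h4
  have h2 := hx1 K N hK hNM hWx hlt
  have hpart := part_card σ hNM hy1 hy2
  set c : ℕ := (σ.Part K N ∩ Set.Iio (σ.W K * (2 * σ.p K) ^ (2 * N) * y)).ncard with hc
  set E : ℕ := ∑ i ∈ range K, σ.M i + N + σ.l K + σ.l (K + 1) + 4 with hE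
  set Q : ℕ := ∏ i ∈ range (K + 1), 4 * σ.M i with hQ
  set D : ℕ := σ.cl K * cw (σ.p K) (σ.β K) N with hD
  have hsub : σ.Part K N ∩ Set.Iio (σ.W K * (2 * σ.p K) ^ (2 * N) * y) ⊆ σ.A ∩ Set.Iio x := by
    rintro a ⟨ha, ha2⟩
    refine ⟨⟨K, N, hNM, ha⟩, ?_⟩
    simp only [Set.mem_Iio] at ha2 ⊢
    omega
  have hcard : c ≤ (σ.A ∩ Set.Iio x).ncard :=
    Set.ncard_le_ncard hsub ((Set.finite_Iio x).subset Set.inter_subset_right)
  have hcard' : (c : ℝ) ≤ ((σ.A ∩ Set.Iio x).ncard : ℝ) := by exact_mod_cast hcard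
  have hx3 : x ≤ (2 ^ (E + σ.l K + 3) * Q * c) ^ 2 := by
    calc x ≤ (2 ^ E * Q * D) ^ 2 * y := hmain
      _ = (2 ^ E * Q) ^ 2 * (y * D ^ 2) := by ring
      _ ≤ (2 ^ E * Q) ^ 2 * (2 ^ (σ.l K + 3) * c) ^ 2 := Nat.mul_le_mul_left _ hpart
      _ = (2 ^ (E + σ.l K + 3) * Q * c) ^ 2 := by
        rw [show E + σ.l K + 3 = E + (σ.l K + 3) by ring, pow_add]; ring
  have h3 : Real.sqrt x ≤ (2 : ℝ) ^ (E + σ.l K + 3) * (Q : ℝ) * c := by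
    apply Real.sqrt_le_iff.2
    refine ⟨by positivity, ?_⟩
    exact_mod_cast hx3
  have h4 : (2 : ℝ) ^ (E + σ.l K + 3) * (Q : ℝ) ≤ Real.exp (Real.log x ^ (α + e)) := by
    have e1 : E + σ.l K + 3 = ∑ i ∈ range K, σ.M i + N + 2 * σ.l K + σ.l (K + 1) + 7 := by
      rw [hE]; ring
    rw [e1, hQ]
    push_cast
    exact h2
  have h5 : Real.sqrt x ≤ Real.exp (Real.log x ^ (α + e)) * c :=
    h3.trans (mul_le_mul_of_nonneg_right h4 (by positivity))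
  rw [Real.exp_neg, ← div_eq_mul_inv, div_le_iff₀ (Real.exp_pos _)]
  calc Real.sqrt x ≤ Real.exp (Real.log x ^ (α + e)) * c := h5
    _ = c * Real.exp (Real.log x ^ (α + e)) := mul_comm _ _
    _ ≤ _ := mul_le_mul_of_nonneg_right hcard' (Real.exp_pos _).le

end Pool.Agent.Helper3.WAR.Helper8.WA
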